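import Mathlib
import Pool.Agent.N495.TS.StmT

/-!
# Torsion of quotients of products
-/

set_option autoImplicit false

namespace Pool.Agent.N861.TS.TORS

theorem zs {V : Type} [AddCommGroup V] {q : ℕ} {t : V} (ht : q • t = 0) {a : ℤ}
    (ha : (q : ℤ) ∣ a) : a • t = 0 := by
  obtain ⟨k, rfl⟩ := ha
  rw [mul_comm, mul_smul, natCast_zsmul, ht, smul_zero]

/-- division by integers prime to `q` -/
theorem inv {V : Type} [AddCommGroup V] {q : ℕ} (hq : q.Prime) (L : AddSubgroup V) {t : V}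
    (ht : q • t ∈ L) {a : ℤ} (ha : ¬ (q : ℤ) ∣ a) (h : a • t ∈ L) : t ∈ L := by
  have h1 : IsCoprime a (q : ℤ) := ((Prime.coprime_iff_not_dvd (Nat.prime_iff_prime_int.1 hq)).2 ha).symm
  obtain ⟨r, s, hrs⟩ := h1
  have h2 : t = r • (a • t) + s • (q • t) := by
    rw [← natCast_zsmul, ← mul_smul, ← mul_smul, ← add_smul, hrs, one_smul]
  rw [h2]
  exact L.add_mem (L.zsmul_mem h r) (L.zsmul_mem ht s)

theorem inv' {V : Type} [AddCommGroup V] {q : ℕ} (hq : q.Prime) (L : AddSubgroup V) {t : V}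
    (ht : q • t = 0) {a : ℤ} (ha : ¬ (q : ℤ) ∣ a) (h : a • t ∈ L) : t ∈ L :=
  inv hq L (by rw [ht]; exact L.zero_mem) ha h

/-- a stable subgroup which contains an element of order `q` contains the `q`-torsion -/
theorem tors_le {V G : Type} [AddCommGroup V] (act : G → V →+ V) (q : ℕ) (hq : q.Prime)
    (hs : ∃ P Q : V, q • P = 0 ∧ q • Q = 0 ∧ ∀ R : V, q • R = 0 → ∃ m n : ℤ, R = m • P + n • Q)
    (hi : ∀ v : V, q • v = 0 → v ≠ 0 → ∃ σ : G, act σ v ∉ AddSubgroup.zmultiples v)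
    (L : AddSubgroup V) (hst : ∀ σ, ∀ v ∈ L, act σ v ∈ L) (v : V) (hv : v ∈ L) (hqv : q • v = 0)
    (hv0 : v ≠ 0) (R : V) (hR : q • R = 0) : R ∈ L := by
  obtain ⟨P, Q, hP, hQ, hspan⟩ := hs
  obtain ⟨σ, hσ⟩ := hi v hqv hv0
  obtain ⟨w, hw⟩ : ∃ w, w = act σ v := ⟨_, rfl⟩
  rw [← hw] at hσ
  have hwL : w ∈ L := hw ▸ hst σ v hv
  have hqw : q • w = 0 := by rw [hw, ← map_nsmul, hqv, map_zero]
  obtain ⟨a, b, hab⟩ := hspan v hqv
  obtain ⟨c, d, hcd⟩ := hspan w hqw
  have e1 : (a * d - b * c) • P = d • v - b • w := by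
    rw [hab, hcd]
    module
  have e2 : (a * d - b * c) • Q = a • w - c • v := by
    rw [hab, hcd]
    module
  by_cases hD : (q : ℤ) ∣ a * d - b * c
  · exfalso
    rw [zs hP hD] at e1
    rw [zs hQ hD] at e2
    have hz : v ∈ AddSubgroup.zmultiples v := AddSubgroup.mem_zmultiples v
    by_cases ha : (q : ℤ) ∣ a
    · by_cases hb : (q : ℤ) ∣ b
      · apply hv0
        rw [hab, zs hP ha, zs hQ hb, add_zero]
      · apply hσ
        refine inv' hq _ hqw hb ?_
        rw [← sub_eq_zero.1 e1.symm]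
        exact (AddSubgroup.zmultiples v).zsmul_mem hz d
    · apply hσ
      refine inv' hq _ hqw ha ?_
      rw [sub_eq_zero.1 e2.symm]
      exact (AddSubgroup.zmultiples v).zsmul_mem hz c
  · have hPL : P ∈ L := inv' hq L hP hD (by
      rw [e1]; exact L.sub_mem (L.zsmul_mem hv d) (L.zsmul_mem hwL b))
    have hQL : Q ∈ L := inv' hq L hQ hD (by
      rw [e2]; exact L.sub_mem (L.zsmul_mem hwL a) (L.zsmul_mem hv c))
    obtain ⟨m, n, rfl⟩ := hspan R hR
    exact L.add_mem (L.zsmul_mem hPL m) (L.zsmul_mem hQL n)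

theorem one_var {V G : Type} [AddCommGroup V] (act : G → V →+ V) (q : ℕ) (hq : q.Prime)
    (hs : ∃ P Q : V, q • P = 0 ∧ q • Q = 0 ∧ ∀ R : V, q • R = 0 → ∃ m n : ℤ, R = m • P + n • Q)
    (hi : ∀ v : V, q • v = 0 → v ≠ 0 → ∃ σ : G, act σ v ∉ AddSubgroup.zmultiples v)
    (H : Set G) (k : ℕ) : ∀ L : AddSubgroup V, (L : Set V).Finite → (L : Set V).ncard ≤ k →
      (∀ σ, ∀ v ∈ L, act σ v ∈ L) → ∀ x : V, x ∉ L → q • x ∈ L →
      (∀ σ ∈ H, act σ x - x ∈ L) → ∃ z : V, q • z = 0 ∧ z ≠ 0 ∧ ∀ σ ∈ H, act σ z = z := by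
  induction k with
  | zero =>
    intro L hL hk
    have := (Set.ncard_pos hL).2 ⟨0, L.zero_mem⟩
    omega
  | succ k ih =>
    intro L hL hk hst x hx hqx hσ
    have : Finite L := hL
    by_cases hd : q ∣ Nat.card L
    · have : Fact q.Prime := ⟨hq⟩
      obtain ⟨v, hv⟩ := exists_prime_addOrderOf_dvd_card' q hd
      have hqv : q • (v : V) = 0 := by
        have h1 : q • v = 0 := by rw [← hv]; exact addOrderOf_nsmul_eq_zero v
        have := congrArg (fun y : L => (y : V)) h1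
        simpa using this
      have hv0 : (v : V) ≠ 0 := by
        intro h
        have h1 : v = 0 := Subtype.ext h
        rw [h1, addOrderOf_zero] at hv
        exact hq.one_lt.ne hv
      have hT := tors_le act q hq hs hi L hst v v.2 hqv hv0
      have himg : ((L.map (nsmulAddMonoidHom (α := V) q) : AddSubgroup V) : Set V) =
          (fun y : V => q • y) '' (L : Set V) := by
        ext y
        simp
      refine ih (L.map (nsmulAddMonoidHom (α := V) q)) ?_ ?_ ?_ (q • x) ?_ ?_ ?_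
      · rw [himg]
        exact hL.image _
      · rw [himg]
        have h1 : ((fun y : V => q • y) '' (L : Set V)).ncard ≤ (L : Set V).ncard :=
          Set.ncard_image_le hL
        have h2 : ((fun y : V => q • y) '' (L : Set V)).ncard ≠ (L : Set V).ncard := by
          intro h
          rw [Set.ncard_image_iff hL] at h
          apply hv0
          apply h v.2 L.zero_mem
          show q • (v : V) = q • 0
          rw [hqv, smul_zero]
        omega
      · rintro σ _ ⟨y, hy, rfl⟩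
        refine ⟨act σ y, hst σ y hy, ?_⟩
        show q • act σ y = act σ (q • y)
        rw [map_nsmul]
      · rintro ⟨l, hl, hlx⟩
        have h1 : q • l = q • x := hlx
        apply hx
        have h2 : x - l ∈ L := hT _ (by rw [smul_sub, h1, sub_self])
        have := L.add_mem h2 hl
        rwa [sub_add_cancel] at this
      · exact ⟨q • x, hqx, rfl⟩
      · intro σ hσH
        refine ⟨act σ x - x, hσ σ hσH, ?_⟩
        show q • (act σ x - x) = act σ (q • x) - q • x
        rw [map_nsmul, smul_sub]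
    · have hm : ∀ y ∈ L, Nat.card L • y = 0 := by
        intro y hy
        have h1 : Nat.card L • (⟨y, hy⟩ : L) = 0 := card_nsmul_eq_zero'
        exact congrArg (fun y : L => (y : V)) h1
      refine ⟨Nat.card L • x, ?_, ?_, ?_⟩
      · rw [smul_comm, hm _ hqx]
      · intro h
        apply hx
        refine inv hq L hqx (a := (Nat.card L : ℤ)) (fun h' => hd (by exact_mod_cast h')) ?_
        rw [natCast_zsmul, h]
        exact L.zero_mem
      · intro σ hσH
        rw [← sub_eq_zero, map_nsmul, ← smul_sub]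
        exact hm _ (hσ σ hσH)

theorem many {G : Type} {g : ℕ} (V : Fin g → Type) [∀ i, AddCommGroup (V i)]
    (act : ∀ i, G → V i →+ V i) (q : ℕ) (hq : q.Prime)
    (hs : ∀ i, ∃ P Q : V i, q • P = 0 ∧ q • Q = 0 ∧
      ∀ R : V i, q • R = 0 → ∃ m n : ℤ, R = m • P + n • Q)
    (hi : ∀ i, ∀ v : V i, q • v = 0 → v ≠ 0 → ∃ σ : G, act i σ v ∉ AddSubgroup.zmultiples v)
    (Γ : AddSubgroup (∀ i, V i)) (hΓ : (Γ : Set (∀ i, V i)).Finite)
    (hst : ∀ σ : G, ∀ x ∈ Γ, (fun i => act i σ (x i)) ∈ Γ) (H : Set G) (s : Finset (Fin g)) :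
    ∀ x : ∀ i, V i, (∀ j, j ∉ s → x j = 0) → x ∉ Γ → q • x ∈ Γ →
      (∀ σ ∈ H, (fun i => act i σ (x i) - x i) ∈ Γ) →
      ∃ i, ∃ z : V i, q • z = 0 ∧ z ≠ 0 ∧ ∀ σ ∈ H, act i σ z = z := by
  classical
  induction s using Finset.induction_on with
  | empty =>
    intro x hx hxΓ _ _
    exfalso
    apply hxΓ
    have : x = 0 := funext fun j => hx j (Finset.notMem_empty j)
    rw [this]
    exact Γ.zero_mem
  | insert i s his ih =>
    intro x hx hxΓ hqx hσ
    set Γs : AddSubgroup (∀ i, V i) :=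
      { carrier := {γ | γ ∈ Γ ∧ ∀ j, j ∉ insert i s → γ j = 0}
        zero_mem' := ⟨Γ.zero_mem, fun _ _ => rfl⟩
        add_mem' := fun {a b} ha hb => ⟨Γ.add_mem ha.1 hb.1, fun j hj => by
          rw [Pi.add_apply, ha.2 j hj, hb.2 j hj, add_zero]⟩
        neg_mem' := fun {a} ha => ⟨Γ.neg_mem ha.1, fun j hj => by
          rw [Pi.neg_apply, ha.2 j hj, neg_zero]⟩ } with hΓs
    have hmem : ∀ γ, γ ∈ Γs ↔ γ ∈ Γ ∧ ∀ j, j ∉ insert i s → γ j = 0 := fun γ => Iff.rfl
    set L : AddSubgroup (V i) := Γs.map (Pi.evalAddMonoidHom V i) with hL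
    by_cases hxL : x i ∈ L
    · obtain ⟨γ, hγ, hγi⟩ := hxL
      have hγi' : γ i = x i := hγi
      have hγ' := (hmem γ).1 hγ
      refine ih (x - γ) ?_ ?_ ?_ ?_
      · intro j hj
        by_cases hji : j = i
        · subst hji
          rw [Pi.sub_apply, hγi', sub_self]
        · have h1 : j ∉ insert i s := fun h => (Finset.mem_insert.1 h).elim hji hj
          rw [Pi.sub_apply, hx j h1, hγ'.2 j h1, sub_zero]
      · intro h
        apply hxΓ
        have := Γ.add_mem h hγ'.1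
        rwa [sub_add_cancel] at this
      · rw [smul_sub]
        exact Γ.sub_mem hqx (Γ.nsmul_mem hγ'.1 q)
      · intro σ hσH
        have h1 := Γ.sub_mem (hσ σ hσH) (Γ.sub_mem (hst σ γ hγ'.1) hγ'.1)
        convert h1 using 1
        funext j
        simp only [Pi.sub_apply, map_sub]
        abel
    · refine ⟨i, one_var (act i) q hq (hs i) (hi i) H _ L ?_ le_rfl ?_ (x i) hxL ?_ ?_⟩
      · have h1 : (Γs : Set (∀ i, V i)).Finite := hΓ.subset fun γ hγ => ((hmem γ).1 hγ).1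
        rw [hL, AddSubgroup.coe_map]
        exact h1.image _
      · rintro σ _ ⟨γ, hγ, rfl⟩
        have hγ' := (hmem γ).1 hγ
        refine ⟨fun i => act i σ (γ i), (hmem _).2 ⟨hst σ γ hγ'.1, fun j hj => ?_⟩, rfl⟩
        show act j σ (γ j) = 0
        rw [hγ'.2 j hj, map_zero]
      · refine ⟨q • x, (hmem _).2 ⟨hqx, fun j hj => ?_⟩, rfl⟩
        rw [Pi.smul_apply, hx j hj, smul_zero]
      · intro σ hσH
        refine ⟨fun i => act i σ (x i) - x i, (hmem _).2 ⟨hσ σ hσH, fun j hj => ?_⟩, rfl⟩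
        show act j σ (x j) - x j = 0
        rw [hx j hj, map_zero, sub_zero]

theorem t_TORS : Pool.Agent.N495.TS.S_TORS := by
  intro G g V _ act q hq hs hi Γ hΓ hst H x hσ hfin hdvd
  have hpos := addOrderOf_pos_iff.2 hfin
  obtain ⟨m, hm⟩ := hdvd
  have hm0 : 0 < m := by
    rcases Nat.eq_zero_or_pos m with h | h
    · rw [h, mul_zero] at hm
      omega
    · exact h
  refine many V act q hq hs hi Γ hΓ hst H Finset.univ (m • x)
    (fun j hj => absurd (Finset.mem_univ j) hj) ?_ ?_ ?_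
  · intro h
    rw [← QuotientAddGroup.eq_zero_iff] at h
    have h1 : m • (x : (∀ i, V i) ⧸ Γ) = 0 := h
    have h2 := Nat.le_of_dvd hm0 (addOrderOf_dvd_of_nsmul_eq_zero h1)
    rw [hm] at h2
    have h3 := hq.two_le
    nlinarith
  · rw [← mul_smul, ← hm, ← QuotientAddGroup.eq_zero_iff]
    exact addOrderOf_nsmul_eq_zero (x : (∀ i, V i) ⧸ Γ)
  · intro σ hσH
    have h1 := Γ.nsmul_mem (hσ σ hσH) m
    convert h1 using 1
    funext j
    simp only [Pi.smul_apply, map_nsmul, smul_sub]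

end Pool.Agent.N861.TS.TORS
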